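import Pool.Agent.T9h76.RegGraph

/-!
# MP_397c7d_co, Q1: no nontrivial lattice identity holds in all `R(G)`, `G` a finite graph

If a lattice identity `s = t` holds in the lattice `R(G)` of regular closed families of connected
sets for every finite graph `G`, then it holds in every lattice.

The lattice of regular closed subsets of any finite strict ordering `e` is a sublattice (an interval)
of `R(G)`, where `G` is the covering graph of the lattice of up-sets of `e`.
-/

namespace Pool.Agent.Results.MP_397c7d_co.NoIdentityRG

open Pool.Agent.R645.RegTree (LTerm)
open Pool.Agent.T9h76.RegGraph (R R.lattice)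

universe u

theorem result (s t : LTerm)
    (h : ∀ (V : Type) [Finite V] (G : SimpleGraph V) (F : ℕ → R G),
      @LTerm.eval (R G) (R.lattice G) F s = @LTerm.eval (R G) (R.lattice G) F t) :
    ∀ (K : Type u) [Lattice K] (v : ℕ → K), s.eval v = t.eval v :=
  fun K _ v => Pool.Agent.T9h76.RegGraph.main s t h K v

end Pool.Agent.Results.MP_397c7d_co.NoIdentityRG
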